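import Mathlib

/-!
A counterexample for `k = 4`.  The pattern graph `R` lives on `47` vertices: six independent
classes of size five forming the quadratic residue tournament on `7` points with the point `0`
removed, a class of size eleven joined to them as the point `0` is, and a class of size six joined
to them in the reverse way; the last two classes together span a regular tournament on `17` points.
-/

set_option autoImplicit false

namespace Pool.Agent.P.MP_c11f96_co

/-- The quadratic residue tournament on `7` points. -/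
def qr (a b : ℕ) : Bool :=
  (b + 7 - a) % 7 == 1 || (b + 7 - a) % 7 == 2 || (b + 7 - a) % 7 == 4

/-- The class of a vertex of the pattern: `1, …, 6` for the independent classes, `0` for the class
of size eleven and `7` for the class of size six. -/
def cls (r : ℕ) : ℕ := if r < 30 then r / 5 + 1 else if r < 41 then 0 else 7

/-- Allowed arcs between classes. -/
def Q (a b : ℕ) : Bool :=
  if (a == 0 || a == 7) && (b == 0 || b == 7) then true
  else if a == 7 then qr b 0
  else if b == 7 then qr 0 a
  else qr a b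

/-- The pattern graph. -/
def R (r s : ℕ) : Bool :=
  if 30 ≤ r && 30 ≤ s then 1 ≤ (s + 17 - r) % 17 && (s + 17 - r) % 17 ≤ 8
  else Q (cls r) (cls s)

/-- The weight of a class. -/
def wt (c : ℕ) : ℕ := if c == 0 then 1 else if c == 7 then 2 else 0

lemma R_irrefl : ∀ r : Fin 47, R r r = false := by decide +kernel

lemma R_asymm : ∀ r s : Fin 47, R r s = true → R s r = false := by decide +kernel

lemma R_Q : ∀ r s : Fin 47, R r s = true → Q (cls r) (cls s) = true := by decide +kernel

lemma cls_lt : ∀ r : Fin 47, cls r < 8 := by decide +kernel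

lemma Q_wt : ∀ a b c d : Fin 8, Q a b = true → Q a c = true → Q a d = true → Q b c = true →
    Q b d = true → Q c d = true → 2 ≤ wt a + wt b + wt c + wt d := by decide +kernel

lemma R_out : ∀ r : Fin 47, 21 ≤ (Finset.univ.filter fun s : Fin 47 => R r s = true).card := by
  decide +kernel

lemma R_in : ∀ r : Fin 47, 21 ≤ (Finset.univ.filter fun s : Fin 47 => R s r = true).card := by
  decide +kernel

lemma sum_wt : ∑ r : Fin 47, wt (cls r) = 23 := by decide +kernel

lemma R_wt (a b c d : Fin 47) (h1 : R a b = true) (h2 : R a c = true) (h3 : R a d = true)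
    (h4 : R b c = true) (h5 : R b d = true) (h6 : R c d = true) :
    2 ≤ wt (cls a) + wt (cls b) + wt (cls c) + wt (cls d) :=
  Q_wt ⟨cls a, cls_lt a⟩ ⟨cls b, cls_lt b⟩ ⟨cls c, cls_lt c⟩ ⟨cls d, cls_lt d⟩
    (R_Q _ _ h1) (R_Q _ _ h2) (R_Q _ _ h3) (R_Q _ _ h4) (R_Q _ _ h5) (R_Q _ _ h6)

/-- Among four distinct vertices of a tournament three span a transitive triangle. -/
lemma tt3_of_four {V : Type*} (T : V → V → Prop) (hT : ∀ x y, x ≠ y → (T x y ↔ ¬ T y x))
    (a b c d : V) (hab : a ≠ b) (hac : a ≠ c) (had : a ≠ d) (hbc : b ≠ c) (hbd : b ≠ d)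
    (hcd : c ≠ d) (P : V → Prop) (ha : P a) (hb : P b) (hc : P c) (hd : P d) :
    ∃ x y z, P x ∧ P y ∧ P z ∧ T x y ∧ T x z ∧ T y z := by
  have key : ∀ x y z : V, y ≠ z → P x → P y → P z → T x y → T x z →
      ∃ x y z, P x ∧ P y ∧ P z ∧ T x y ∧ T x z ∧ T y z := by
    intro x y z hyz hx hy hz hxy hxz
    by_cases h : T y z
    · exact ⟨x, y, z, hx, hy, hz, hxy, hxz, h⟩
    · exact ⟨x, z, y, hx, hz, hy, hxz, hxy, (hT z y hyz.symm).2 h⟩
  have key2 : ∀ x y z : V, y ≠ z → P x → P y → P z → T y x → T z x →
      ∃ x y z, P x ∧ P y ∧ P z ∧ T x y ∧ T x z ∧ T y z := by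
    intro x y z hyz hx hy hz hxy hxz
    by_cases h : T y z
    · exact ⟨y, z, x, hy, hz, hx, h, hxy, hxz⟩
    · exact ⟨z, y, x, hz, hy, hx, (hT z y hyz.symm).2 h, hxz, hxy⟩
  by_cases h1 : T a b
  · by_cases h2 : T a c
    · exact key a b c hbc ha hb hc h1 h2
    · by_cases h3 : T a d
      · exact key a b d hbd ha hb hd h1 h3
      · exact key2 a c d hcd ha hc hd ((hT c a hac.symm).2 h2) ((hT d a had.symm).2 h3)
  · by_cases h2 : T a c
    · by_cases h3 : T a d
      · exact key a c d hcd ha hc hd h2 h3
      · exact key2 a b d hbd ha hb hd ((hT b a hab.symm).2 h1) ((hT d a had.symm).2 h3)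
    · exact key2 a b c hbc ha hb hc ((hT b a hab.symm).2 h1) ((hT c a hac.symm).2 h2)

lemma reg_four :
    IsGreatest {m : ℕ | ∃ T : Fin m → Fin m → Prop,
          (∀ x, ¬ T x x) ∧
          (∀ x y, x ≠ y → (T x y ↔ ¬ T y x)) ∧
          (∀ v, Set.ncard {w | T v w} = Set.ncard {w | T w v}) ∧
          ¬ ∃ f : Fin 4 → Fin m, Function.Injective f ∧
              ∀ i j : Fin 4, i < j → T (f i) (f j)} 7 := by
  constructor
  · refine ⟨fun a b => qr a b = true, by decide, by decide, ?_, ?_⟩
    · intro v
      have h1 : {w : Fin 7 | qr v w = true} =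
          ((Finset.univ.filter fun w : Fin 7 => qr v w = true : Finset (Fin 7)) : Set (Fin 7)) := by
        ext w; simp
      have h2 : {w : Fin 7 | qr w v = true} =
          ((Finset.univ.filter fun w : Fin 7 => qr w v = true : Finset (Fin 7)) : Set (Fin 7)) := by
        ext w; simp
      rw [h1, h2, Set.ncard_coe_finset, Set.ncard_coe_finset]
      clear h1 h2
      revert v
      decide
    · rintro ⟨f, -, hf⟩
      have key : ∀ a b c d : Fin 7, qr a b = true → qr a c = true → qr a d = true →
          qr b c = true → qr b d = true → qr c d = true → False := by decide +kernel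
      exact key (f 0) (f 1) (f 2) (f 3) (hf 0 1 (by decide)) (hf 0 2 (by decide))
        (hf 0 3 (by decide)) (hf 1 2 (by decide)) (hf 1 3 (by decide)) (hf 2 3 (by decide))
  · rintro m ⟨T, hirr, hT, hreg, hfree⟩
    by_contra hm
    push Not at hm
    apply hfree
    let v : Fin m := ⟨0, by omega⟩
    have hcov : (Set.univ : Set (Fin m)) ⊆ {v} ∪ ({w | T v w} ∪ {w | T w v}) := by
      intro w _
      by_cases hw : w = v
      · left; exact hw
      · right
        by_cases h : T v w
        · left; exact h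
        · right; exact (hT w v hw).2 h
    have hcard : m ≤ 1 + (Set.ncard {w | T v w} + Set.ncard {w | T w v}) := by
      have h0 := Set.ncard_le_ncard hcov (Set.toFinite _)
      rw [Set.ncard_univ, Nat.card_eq_fintype_card, Fintype.card_fin] at h0
      have h1 := Set.ncard_union_le ({v} : Set (Fin m)) ({w | T v w} ∪ {w | T w v})
      have h2 := Set.ncard_union_le {w | T v w} {w | T w v}
      rw [Set.ncard_singleton] at h1
      omega
    have h4 : 3 < Set.ncard {w | T v w} := by
      have := hreg v
      omega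
    obtain ⟨a, b, c, d, ha, hb, hc, hd, hab, hac, had, hbc, hbd, hcd⟩ :=
      (Set.three_lt_ncard_iff (Set.toFinite _)).1 h4
    obtain ⟨x, y, z, hx, hy, hz, hxy, hxz, hyz⟩ :=
      tt3_of_four T hT a b c d hab hac had hbc hbd hcd (fun w => T v w) ha hb hc hd
    have hrel : ∀ i j : Fin 4, i < j → T (![v, x, y, z] i) (![v, x, y, z] j) := by
      intro i j hij
      fin_cases i <;> fin_cases j <;> simp_all
    refine ⟨![v, x, y, z], ?_, hrel⟩
    intro i j hij
    rcases lt_trichotomy i j with h | h | h
    · exact absurd (hij ▸ hrel i j h) (hirr _)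
    · exact h
    · exact absurd (hij ▸ hrel j i h) (hirr _)

/-- The projection of the blow-up to the pattern. -/
def pr (t : ℕ) (x : Fin (47 * t)) : Fin 47 := (finProdFinEquiv.symm x).1

lemma ncard_pr (t : ℕ) (p : Fin 47 → Prop) [DecidablePred p] :
    Set.ncard {w : Fin (47 * t) | p (pr t w)} = (Finset.univ.filter p).card * t := by
  have h : {w : Fin (47 * t) | p (pr t w)} =
      finProdFinEquiv '' (((Finset.univ.filter p) ×ˢ (Finset.univ : Finset (Fin t)) :
        Finset (Fin 47 × Fin t)) : Set (Fin 47 × Fin t)) := by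
    ext w
    constructor
    · intro hw
      refine ⟨finProdFinEquiv.symm w, ?_, Equiv.apply_symm_apply _ _⟩
      simpa [pr] using hw
    · rintro ⟨q, hq, rfl⟩
      have hq' : p q.1 := by simpa using hq
      show p (finProdFinEquiv.symm (finProdFinEquiv q)).1
      rw [Equiv.symm_apply_apply]
      exact hq'
  rw [h, Set.ncard_image_of_injective _ finProdFinEquiv.injective, Set.ncard_coe_finset,
    Finset.card_product, Finset.card_univ, Fintype.card_fin]

lemma sum_pr (t : ℕ) : ∑ x : Fin (47 * t), wt (cls (pr t x)) = 23 * t := by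
  rw [← Equiv.sum_comp finProdFinEquiv (fun x : Fin (47 * t) => wt (cls (pr t x)))]
  simp only [pr, Equiv.symm_apply_apply]
  rw [Fintype.sum_prod_type]
  simp only [Finset.sum_const, Finset.card_univ, Fintype.card_fin, smul_eq_mul]
  rw [← Finset.mul_sum, sum_wt, mul_comm]

lemma no_tiling (t : ℕ) (ht : 0 < t) (h4 : 4 ∣ 47 * t) :
    ¬ ∃ f : Fin (47 * t / 4) → Fin 4 → Fin (47 * t),
      Function.Bijective (fun p : Fin (47 * t / 4) × Fin 4 => f p.1 p.2) ∧
      ∀ s : Fin (47 * t / 4), ∀ i j : Fin 4, i < j →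
        R (pr t (f s i)) (pr t (f s j)) = true := by
  rintro ⟨f, hbij, hf⟩
  have h1 := (Equiv.ofBijective _ hbij).sum_comp (fun x : Fin (47 * t) => wt (cls (pr t x)))
  rw [sum_pr, Fintype.sum_prod_type] at h1
  have h2 : ∀ s : Fin (47 * t / 4), 2 ≤ ∑ i : Fin 4, wt (cls (pr t (f s i))) := by
    intro s
    rw [Fin.sum_univ_four]
    exact R_wt _ _ _ _ (hf s 0 1 (by decide)) (hf s 0 2 (by decide))
        (hf s 0 3 (by decide)) (hf s 1 2 (by decide)) (hf s 1 3 (by decide)) (hf s 2 3 (by decide))
  have h3 : ∑ _s : Fin (47 * t / 4), 2 ≤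
      ∑ s : Fin (47 * t / 4), ∑ i : Fin 4, wt (cls (pr t (f s i))) :=
    Finset.sum_le_sum fun s _ => h2 s
  simp only [Finset.sum_const, Finset.card_univ, Fintype.card_fin, smul_eq_mul] at h3
  simp only [Equiv.ofBijective_apply] at h1
  omega

end Pool.Agent.P.MP_c11f96_co
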