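import Pool.Agent.P.MP_c11f96_co.Reg

/-!
The construction for a general `k`.  Fix a regular tournament `R` with no transitive subtournament
on `k` vertices and a vertex `v` of it.  Each vertex of `R` other than `v` is replaced by an
independent class of size `b`.  A further set of `b + 2g` vertices spans a rotational oriented
graph; its first `b + g` vertices are joined to the classes as `v` is, and its last `g` vertices
are joined to them in the reverse way.  With the weights `0`, `1`, `2` on the three kinds of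
vertices every transitive `k`-tournament has weight at least `2`, and the total weight is `b + 3g`.
-/

set_option autoImplicit false

namespace Pool.Agent.P.MP_c11f96_co.Every

/-- The vertex set of the construction. -/
abbrev W {V : Type} (v : V) (b M : ℕ) : Type := ({c : V // c ≠ v} × Fin b) ⊕ Fin M

/-- The oriented graph of the construction. -/
def Gr {V : Type} (R : V → V → Prop) (v : V) (b M a : ℕ) (H : Fin M → Fin M → Prop) :
    W v b M → W v b M → Prop
  | Sum.inl x, Sum.inl y => R x.1.1 y.1.1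
  | Sum.inl x, Sum.inr j => (j.1 < a ∧ R x.1.1 v) ∨ (a ≤ j.1 ∧ R v x.1.1)
  | Sum.inr i, Sum.inl y => (i.1 < a ∧ R v y.1.1) ∨ (a ≤ i.1 ∧ R y.1.1 v)
  | Sum.inr i, Sum.inr j => H i j

lemma Gr_flip {V : Type} (R : V → V → Prop) (v : V) (b M a : ℕ) (H : Fin M → Fin M → Prop)
    (x y : W v b M) :
    Gr (fun p q => R q p) v b M a (fun p q => H q p) x y ↔ Gr R v b M a H y x := by
  rcases x with x | i <;> rcases y with y | j <;> exact Iff.rfl

lemma Gr_asymm {V : Type} {R : V → V → Prop} (hR : IsTour R) (v : V) (b M a : ℕ)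
    {H : Fin M → Fin M → Prop} (hH : ∀ i j, H i j → ¬ H j i) (x y : W v b M)
    (h : Gr R v b M a H x y) : ¬ Gr R v b M a H y x := by
  rcases x with x | i <;> rcases y with y | j
  · exact hR.asymm h
  · rintro (⟨h1, h2⟩ | ⟨h1, h2⟩) <;> rcases h with ⟨h3, h4⟩ | ⟨h3, h4⟩
    · exact hR.asymm h2 h4
    · omega
    · omega
    · exact hR.asymm h2 h4
  · rintro (⟨h1, h2⟩ | ⟨h1, h2⟩) <;> rcases h with ⟨h3, h4⟩ | ⟨h3, h4⟩
    · exact hR.asymm h2 h4
    · omega
    · omega
    · exact hR.asymm h2 h4
  · exact hH i j h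

lemma ncard_cls {V : Type} [Finite V] (v : V) (b : ℕ) (q : V → Prop) :
    Set.ncard {x : {c : V // c ≠ v} × Fin b | q x.1.1} = Set.ncard ({c | q c} \ {v}) * b := by
  have h : {x : {c : V // c ≠ v} × Fin b | q x.1.1} =
      {c : {c : V // c ≠ v} | q c.1} ×ˢ (Set.univ : Set (Fin b)) := by
    ext x; simp
  have h2 : {c | q c} \ {v} = Subtype.val '' {c : {c : V // c ≠ v} | q c.1} := by
    ext c
    constructor
    · rintro ⟨h1, h2⟩
      exact ⟨⟨c, h2⟩, h1, rfl⟩
    · rintro ⟨c, hc, rfl⟩
      exact ⟨hc, c.2⟩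
  rw [h, Set.ncard_prod, Set.ncard_univ, h2, Set.ncard_image_of_injective _ Subtype.val_injective]
  simp

lemma le_ncard_of_inj {α : Type*} [Finite α] {g : ℕ} (f : Fin g → α) (hf : Function.Injective f)
    {s : Set α} (hs : ∀ t, f t ∈ s) : g ≤ s.ncard := by
  have h1 : Set.range f ⊆ s := by
    rintro _ ⟨t, rfl⟩
    exact hs t
  have h2 := Set.ncard_le_ncard h1 (Set.toFinite _)
  rw [Set.ncard_range_of_injective hf] at h2
  simpa using h2

lemma Gr_out {V : Type} [Finite V] {R : V → V → Prop} (hR : IsTour R) (v : V) {b g d : ℕ}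
    (hout : ∀ c, Set.ncard {w | R c w} = d) (hin : ∀ c, Set.ncard {w | R w c} = d)
    {H : Fin (b + 2 * g) → Fin (b + 2 * g) → Prop} (hH : ∀ i, g ≤ Set.ncard {j | H i j})
    (x : W v b (b + 2 * g)) :
    d * b + g ≤ Set.ncard {y | Gr R v b (b + 2 * g) (b + g) H x y} := by
  rw [ncard_sum]
  rcases x with x | i
  · have e1 : Set.ncard {y : {c : V // c ≠ v} × Fin b |
        Gr R v b (b + 2 * g) (b + g) H (Sum.inl x) (Sum.inl y)} =
        Set.ncard ({c | R x.1.1 c} \ {v}) * b := ncard_cls v b (fun c => R x.1.1 c)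
    rw [e1]
    by_cases h : R x.1.1 v
    · have e2 : Set.ncard ({c | R x.1.1 c} \ {v}) + 1 = d := by
        rw [Set.ncard_sdiff_singleton_add_one (by exact h) (Set.toFinite _), hout]
      have e3 : b + g ≤ Set.ncard {j : Fin (b + 2 * g) |
          Gr R v b (b + 2 * g) (b + g) H (Sum.inl x) (Sum.inr j)} :=
        le_ncard_of_inj (fun t : Fin (b + g) => (⟨t.1, by omega⟩ : Fin (b + 2 * g)))
          (fun s t hst => Fin.ext (by simpa using hst)) (fun t => Or.inl ⟨t.2, h⟩)
      rw [← e2, add_mul]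
      omega
    · have e2 : Set.ncard ({c | R x.1.1 c} \ {v}) = d := by
        rw [Set.sdiff_singleton_eq_self (by exact h), hout]
      have e3 : g ≤ Set.ncard {j : Fin (b + 2 * g) |
          Gr R v b (b + 2 * g) (b + g) H (Sum.inl x) (Sum.inr j)} :=
        le_ncard_of_inj (fun t : Fin g => (⟨b + g + t.1, by omega⟩ : Fin (b + 2 * g)))
          (fun s t hst => Fin.ext (by simpa using hst))
          (fun t => Or.inr ⟨Nat.le_add_right _ _, hR.total x.1.2 h⟩)
      rw [e2]
      omega
  · have e3 : g ≤ Set.ncard {j : Fin (b + 2 * g) |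
        Gr R v b (b + 2 * g) (b + g) H (Sum.inr i) (Sum.inr j)} := hH i
    have e1 : Set.ncard {y : {c : V // c ≠ v} × Fin b |
        Gr R v b (b + 2 * g) (b + g) H (Sum.inr i) (Sum.inl y)} =
        Set.ncard ({c | (i.1 < b + g ∧ R v c) ∨ (b + g ≤ i.1 ∧ R c v)} \ {v}) * b :=
      ncard_cls v b (fun c => (i.1 < b + g ∧ R v c) ∨ (b + g ≤ i.1 ∧ R c v))
    have e2 : Set.ncard ({c | (i.1 < b + g ∧ R v c) ∨ (b + g ≤ i.1 ∧ R c v)} \ {v}) = d := by
      rw [Set.sdiff_singleton_eq_self (by simp [hR.1 v])]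
      by_cases h : i.1 < b + g
      · rw [← hout v]
        congr 1
        ext c
        simp [h, not_le.2 h]
      · rw [← hin v]
        congr 1
        ext c
        simp [h, not_lt.1 h]
    rw [e1, e2]
    omega

/-- The rotational oriented graph: `i` beats the next `g` points of the cycle. -/
def Rot (M g : ℕ) (i j : Fin M) : Prop := (i.1 < j.1 ∧ j.1 ≤ i.1 + g) ∨ j.1 + M ≤ i.1 + g

lemma Rot_asymm {b g : ℕ} (hb : 0 < b) (i j : Fin (b + 2 * g)) (h : Rot _ g i j) :
    ¬ Rot _ g j i := by
  unfold Rot at *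
  omega

lemma Rot_out {b g : ℕ} (hb : 0 < b) (i : Fin (b + 2 * g)) : g ≤ Set.ncard {j | Rot _ g i j} := by
  have hi := i.2
  refine le_ncard_of_inj (fun t : Fin g => (⟨if i.1 + 1 + t.1 < b + 2 * g then i.1 + 1 + t.1
    else i.1 + 1 + t.1 - (b + 2 * g), by have := t.2; split_ifs <;> omega⟩ : Fin (b + 2 * g)))
    ?_ ?_
  · intro s t hst
    have hs := s.2
    have ht := t.2
    simp only [Fin.mk.injEq] at hst
    apply Fin.ext
    split_ifs at hst <;> omega
  · intro t
    have ht := t.2
    simp only [Set.mem_ofPred_eq, Rot]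
    split_ifs <;> omega

lemma Rot_in {b g : ℕ} (hb : 0 < b) (i : Fin (b + 2 * g)) : g ≤ Set.ncard {j | Rot _ g j i} := by
  have hi := i.2
  refine le_ncard_of_inj (fun t : Fin g => (⟨if t.1 + 1 ≤ i.1 then i.1 - (t.1 + 1)
    else i.1 + (b + 2 * g) - (t.1 + 1), by have := t.2; split_ifs <;> omega⟩ : Fin (b + 2 * g)))
    ?_ ?_
  · intro s t hst
    have hs := s.2
    have ht := t.2
    simp only [Fin.mk.injEq] at hst
    apply Fin.ext
    split_ifs at hst <;> omega
  · intro t
    have ht := t.2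
    simp only [Set.mem_ofPred_eq, Rot]
    split_ifs <;> omega

/-- The weight of a vertex. -/
def wt {V : Type} (v : V) (b M a : ℕ) : W v b M → ℕ
  | Sum.inl _ => 0
  | Sum.inr j => if j.1 < a then 1 else 2

/-- The vertex of the tournament that a vertex of the construction plays. -/
def role {V : Type} (v : V) (b M : ℕ) : W v b M → V
  | Sum.inl x => x.1.1
  | Sum.inr _ => v

lemma two_le_wt {V : Type} {R : V → V → Prop} (v : V) (b M a : ℕ)
    (H : Fin M → Fin M → Prop) {k : ℕ} (hF : Free k R) (f : Fin k → W v b M)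
    (hf : ∀ i j, i < j → Gr R v b M a H (f i) (f j)) : 2 ≤ ∑ i, wt v b M a (f i) := by
  by_contra hlt
  push Not at hlt
  have hpair : ∀ i j, i < j → wt v b M a (f i) + wt v b M a (f j) < 2 := by
    intro i j hij
    have h1 := Finset.sum_le_sum_of_subset (f := fun i => wt v b M a (f i))
      (Finset.subset_univ {i, j})
    rw [Finset.sum_pair hij.ne] at h1
    omega
  have hrel : ∀ i j, i < j → R (role v b M (f i)) (role v b M (f j)) := by
    intro i j hij
    have h1 := hf i j hij
    have h2 := hpair i j hij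
    generalize f i = x at h1 h2
    generalize f j = y at h1 h2
    rcases x with x | s <;> rcases y with y | t
    · exact h1
    · rcases h1 with h1 | h1
      · exact h1.2
      · simp only [wt, not_lt.2 h1.1] at h2
        simp at h2
    · rcases h1 with h1 | h1
      · exact h1.2
      · simp only [wt, not_lt.2 h1.1] at h2
        simp at h2
    · simp only [wt] at h2
      split_ifs at h2 <;> omega
  have := hF (List.ofFn fun i => role v b M (f i)) (List.pairwise_ofFn.2 fun i j hij => hrel i j hij)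
  simp at this

lemma sum_wt {V : Type} [Fintype V] [DecidableEq V] (v : V) (b g : ℕ) :
    ∑ x : W v b (b + 2 * g), wt v b (b + 2 * g) (b + g) x = b + 3 * g := by
  rw [Fintype.sum_sum_type]
  simp only [wt, Finset.sum_const_zero, zero_add]
  rw [Fin.sum_univ_eq_sum_range (fun j => if j < b + g then 1 else 2) (b + 2 * g),
    show b + 2 * g = (b + g) + g by ring, Finset.sum_range_add]
  rw [Finset.sum_congr rfl (g := fun _ => 1) (fun j hj => if_pos (Finset.mem_range.1 hj)),
    Finset.sum_congr rfl (g := fun _ => 2) (fun j _ => if_neg (by omega))]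
  simp
  ring

/-- The construction on `Fin n`. -/
lemma construction {r d k b g n : ℕ} (hrd : r = 2 * d + 1) (hr : r ∈ Orders k) (hb : 0 < b)
    (hn : n = r * b + 2 * g) (hw : b + 3 * g < 2 * (n / k)) :
    ∃ G : Fin n → Fin n → Prop, (∀ x, ¬ G x x) ∧ (∀ x y, G x y → ¬ G y x) ∧
      (∀ x, d * b + g ≤ Set.ncard {w | G x w} ∧ d * b + g ≤ Set.ncard {w | G w x}) ∧
      ¬ ∃ f : Fin (n / k) → Fin k → Fin n,
        Function.Bijective (fun p : Fin (n / k) × Fin k => f p.1 p.2) ∧
        ∀ t : Fin (n / k), ∀ i j : Fin k, i < j → G (f t i) (f t j) := by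
  classical
  obtain ⟨R, h1, h2, h3, h4⟩ := hr
  have hR : IsTour R := ⟨h1, h2⟩
  have hF : Free k R := (free_iff h1 k).2 h4
  have hdeg : ∀ c, Set.ncard {w | R c w} = d ∧ Set.ncard {w | R w c} = d := by
    intro c
    have e1 := deg_sum hR c
    have e2 := h3 c
    rw [Nat.card_eq_fintype_card, Fintype.card_fin] at e1
    omega
  let v : Fin r := ⟨0, by omega⟩
  have hcard : Fintype.card (W v b (b + 2 * g)) = n := by
    have e : Fintype.card {c : Fin r // c ≠ v} = 2 * d := by
      rw [Fintype.card_subtype_compl, Fintype.card_fin, Fintype.card_subtype_eq]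
      omega
    rw [Fintype.card_sum, Fintype.card_prod, e, Fintype.card_fin, Fintype.card_fin, hn, hrd]
    ring
  let e : Fin n ≃ W v b (b + 2 * g) := (Fintype.equivFinOfCardEq hcard).symm
  have hasym := Gr_asymm hR v b (b + 2 * g) (b + g) (Rot_asymm hb)
  refine ⟨fun x y => Gr R v b (b + 2 * g) (b + g) (Rot _ g) (e x) (e y),
    fun x h => hasym _ _ h h, fun x y h => hasym _ _ h, fun x => ⟨?_, ?_⟩, ?_⟩
  · rw [ncard_equiv e (fun w => Gr R v b (b + 2 * g) (b + g) (Rot _ g) (e x) w)]
    exact Gr_out hR v (fun c => (hdeg c).1) (fun c => (hdeg c).2) (Rot_out hb) _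
  · rw [ncard_equiv e (fun w => Gr R v b (b + 2 * g) (b + g) (Rot _ g) w (e x))]
    have := Gr_out hR.flip v (fun c => (hdeg c).2) (fun c => (hdeg c).1)
      (H := fun p q => Rot _ g q p) (Rot_in hb) (e x)
    simpa only [Gr_flip] using this
  · rintro ⟨f, hbij, hf⟩
    have s1 := (Equiv.ofBijective _ hbij).sum_comp (fun x : Fin n => wt v b _ (b + g) (e x))
    rw [e.sum_comp (fun x => wt v b _ (b + g) x), sum_wt, Fintype.sum_prod_type] at s1
    have s2 : ∑ _s : Fin (n / k), 2 ≤
        ∑ s : Fin (n / k), ∑ i : Fin k, wt v b _ (b + g) (e (f s i)) :=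
      Finset.sum_le_sum fun s _ => two_le_wt v b _ _ _ hF (fun i => e (f s i)) (hf s)
    simp only [Finset.sum_const, Finset.card_univ, Fintype.card_fin, smul_eq_mul] at s2
    simp only [Equiv.ofBijective_apply] at s1
    omega

end Pool.Agent.P.MP_c11f96_co.Every
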