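import Mathlib

/-!
Regular tournaments without a transitive subtournament on `k` vertices: the largest order exists
and is at least `2k - 1` for `k ≥ 4`.
-/

set_option autoImplicit false

namespace Pool.Agent.P.MP_c11f96_co.Every

/-- A tournament. -/
def IsTour {V : Type*} (T : V → V → Prop) : Prop :=
  (∀ x, ¬ T x x) ∧ ∀ x y, x ≠ y → (T x y ↔ ¬ T y x)

/-- Outdegree equals indegree at each vertex. -/
def IsReg {V : Type*} (T : V → V → Prop) : Prop :=
  ∀ v, Set.ncard {w | T v w} = Set.ncard {w | T w v}

/-- Every transitive list has fewer than `k` entries. -/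
def Free {V : Type*} (k : ℕ) (T : V → V → Prop) : Prop :=
  ∀ l : List V, l.Pairwise T → l.length < k

lemma IsTour.asymm {V : Type*} {T : V → V → Prop} (h : IsTour T) {x y : V} (hxy : T x y) :
    ¬ T y x := by
  by_cases e : x = y
  · subst e; exact h.1 x
  · exact (h.2 x y e).1 hxy

lemma IsTour.total {V : Type*} {T : V → V → Prop} (h : IsTour T) {x y : V} (e : x ≠ y)
    (hxy : ¬ T x y) : T y x := (h.2 y x e.symm).2 hxy

lemma IsTour.flip {V : Type*} {T : V → V → Prop} (h : IsTour T) : IsTour (fun x y => T y x) :=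
  ⟨h.1, fun x y e => h.2 y x e.symm⟩

lemma IsReg.flip {V : Type*} {T : V → V → Prop} (h : IsReg T) : IsReg (fun x y => T y x) :=
  fun v => (h v).symm

lemma free_iff {V : Type*} {T : V → V → Prop} (hirr : ∀ x, ¬ T x x) (k : ℕ) :
    Free k T ↔ ¬ ∃ f : Fin k → V, Function.Injective f ∧
      ∀ i j : Fin k, i < j → T (f i) (f j) := by
  constructor
  · rintro h ⟨f, -, hf⟩
    have := h (List.ofFn f) (List.pairwise_ofFn.2 fun i j hij => hf i j hij)
    simp at this
  · intro h l hl
    by_contra hk
    push Not at hk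
    apply h
    have hrel : ∀ i j : Fin k, i < j →
        T (l.get ⟨i, lt_of_lt_of_le i.2 hk⟩) (l.get ⟨j, lt_of_lt_of_le j.2 hk⟩) := by
      intro i j hij
      exact List.pairwise_iff_get.1 hl _ _ hij
    refine ⟨fun i => l.get ⟨i, lt_of_lt_of_le i.2 hk⟩, ?_, hrel⟩
    intro i j hij
    rcases lt_trichotomy i j with e | e | e
    · have := hrel i j e
      simp only at hij
      rw [hij] at this
      exact absurd this (hirr _)
    · exact e
    · have := hrel j i e
      simp only at hij
      rw [hij] at this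
      exact absurd this (hirr _)

/-- A transitive list contains no cyclic triangle. -/
lemma no_cycle {V : Type*} {T : V → V → Prop} (hT : IsTour T) {l : List V} (hl : l.Pairwise T)
    {a b c : V} (ha : a ∈ l) (hb : b ∈ l) (hc : c ∈ l) (hab : T a b) (hbc : T b c)
    (hca : T c a) : False := by
  have key : ∀ i j : Fin l.length, T (l.get i) (l.get j) → i < j := by
    intro i j h
    rcases lt_trichotomy i j with e | e | e
    · exact e
    · subst e; exact absurd h (hT.1 _)
    · exact absurd (List.pairwise_iff_get.1 hl _ _ e) (hT.asymm h)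
  obtain ⟨i, rfl⟩ := List.mem_iff_get.1 ha
  obtain ⟨j, rfl⟩ := List.mem_iff_get.1 hb
  obtain ⟨m, rfl⟩ := List.mem_iff_get.1 hc
  exact absurd ((key _ _ hab).trans ((key _ _ hbc).trans (key _ _ hca))) (lt_irrefl _)

lemma ncard_sum {α β : Type*} [Finite α] [Finite β] (p : α ⊕ β → Prop) :
    Set.ncard {w | p w} = Set.ncard {x | p (Sum.inl x)} + Set.ncard {y | p (Sum.inr y)} := by
  have h : {w | p w} = Sum.inl '' {x | p (Sum.inl x)} ∪ Sum.inr '' {y | p (Sum.inr y)} := by
    ext w
    rcases w with x | y <;> simp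
  rw [h, Set.ncard_union_eq _ (Set.toFinite _) (Set.toFinite _),
    Set.ncard_image_of_injective _ Sum.inl_injective,
    Set.ncard_image_of_injective _ Sum.inr_injective]
  rw [Set.disjoint_left]
  rintro w ⟨x, -, rfl⟩ ⟨y, -, hy⟩
  exact Sum.inr_ne_inl hy

/-- In a tournament outdegree plus indegree plus one is the order. -/
lemma deg_sum {V : Type*} [Finite V] {T : V → V → Prop} (hT : IsTour T) (v : V) :
    Set.ncard {w | T v w} + Set.ncard {w | T w v} + 1 = Nat.card V := by
  have h : (Set.univ : Set V) = insert v ({w | T v w} ∪ {w | T w v}) := by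
    ext w
    simp only [Set.mem_univ, Set.mem_insert_iff, Set.mem_union, Set.mem_ofPred_eq, true_iff]
    by_cases e : w = v
    · exact Or.inl e
    · by_cases h : T v w
      · exact Or.inr (Or.inl h)
      · exact Or.inr (Or.inr (hT.total (Ne.symm e) h))
  have hd : Disjoint {w | T v w} {w | T w v} :=
    Set.disjoint_left.2 fun w h1 h2 => hT.asymm h1 h2
  rw [← Set.ncard_univ, h, Set.ncard_insert_of_notMem _ (Set.toFinite _),
    Set.ncard_union_eq hd (Set.toFinite _) (Set.toFinite _)]
  rintro (h | h) <;> exact hT.1 v h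

/-- Two new vertices: `false` beats the outneighbours of `v` and `true`, and `true` beats all the
other old vertices. -/
def ext {V : Type*} (T : V → V → Prop) (v : V) : V ⊕ Bool → V ⊕ Bool → Prop
  | Sum.inl x, Sum.inl y => T x y
  | Sum.inl x, Sum.inr b => (b = true ∧ T v x) ∨ (b = false ∧ ¬ T v x)
  | Sum.inr b, Sum.inl y => (b = false ∧ T v y) ∨ (b = true ∧ ¬ T v y)
  | Sum.inr b, Sum.inr c => b = false ∧ c = true

lemma ext_tour {V : Type*} {T : V → V → Prop} (hT : IsTour T) (v : V) : IsTour (ext T v) := by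
  constructor
  · rintro (x | b)
    · exact hT.1 x
    · cases b <;> simp [ext]
  · rintro (x | b) (y | c) e
    · exact hT.2 x y fun h => e (congrArg _ h)
    · cases c <;> simp [ext]
    · cases b <;> simp [ext]
    · cases b <;> cases c <;> simp_all [ext]

lemma ncard_bool (p : Bool → Prop) [DecidablePred p] :
    Set.ncard {b | p b} = (if p true then 1 else 0) + (if p false then 1 else 0) := by
  have h : {b | p b} = ((Finset.univ.filter p : Finset Bool) : Set Bool) := by
    ext b; simp
  rw [h, Set.ncard_coe_finset, Finset.card_filter, Fintype.sum_bool]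

lemma ext_reg {V : Type*} [Finite V] {T : V → V → Prop} (hT : IsTour T) (hR : IsReg T) (v : V) :
    IsReg (ext T v) := by
  classical
  have hc : Set.ncard {y | ¬ T v y} = Set.ncard {y | T v y} + 1 := by
    have h1 := deg_sum hT v
    have h2 := hR v
    have h3 := Set.ncard_add_ncard_compl {y | T v y} (Set.toFinite _) (Set.toFinite _)
    have h4 : {y | T v y}ᶜ = {y | ¬ T v y} := rfl
    rw [h4] at h3
    omega
  rintro (x | b)
  · rw [ncard_sum, ncard_sum (fun w => ext T v w (Sum.inl x)), ncard_bool, ncard_bool]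
    have := hR x
    by_cases h : T v x <;> simp [ext, h, this]
  · rw [ncard_sum, ncard_sum (fun w => ext T v w (Sum.inr b)), ncard_bool, ncard_bool]
    cases b <;> simp [ext, hc]

lemma ext_free {V : Type*} {T : V → V → Prop} (hT : IsTour T) (v : V) {k : ℕ} (hF : Free k T) :
    Free (k + 1) (ext T v) := by
  classical
  intro l hl
  have hE := ext_tour hT v
  have hnd : l.Nodup := by
    refine List.Pairwise.imp ?_ hl
    intro a b h e
    subst e
    exact hE.1 _ h
  set l0 : List V := l.filterMap Sum.getLeft? with hl0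
  set l1 : List Bool := l.filterMap Sum.getRight? with hl1
  have hlen : l.length = l0.length + l1.length := by
    rw [hl0, hl1]
    clear hl hnd hl0 hl1 l0 l1
    induction l with
    | nil => simp
    | cons a l ih =>
      rcases a with x | b
      · simp [List.filterMap_cons, ih]; omega
      · simp [List.filterMap_cons, ih]; omega
  have hp0 : l0.Pairwise T := by
    refine List.Pairwise.filterMap _ ?_ hl
    rintro (x | b) (y | c) h x' hx' y' hy' <;> simp_all [ext]
  have hnd1 : l1.Nodup := by
    refine List.Nodup.filterMap ?_ hnd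
    rintro (x | b) (y | c) h <;> simp_all
  have hm0 : ∀ x, x ∈ l0 → Sum.inl x ∈ l := by
    intro x hx
    obtain ⟨a, ha, hax⟩ := List.mem_filterMap.1 hx
    rcases a with y | b <;> simp_all
  have hm1 : ∀ b, b ∈ l1 → Sum.inr b ∈ l := by
    intro x hx
    obtain ⟨a, ha, hax⟩ := List.mem_filterMap.1 hx
    rcases a with y | b <;> simp_all
  have hle : l1.length ≤ 2 := by simpa using hnd1.length_le_card
  by_cases h2 : l1.length ≤ 1
  · have := hF l0 hp0
    omega
  · have hall : ∀ b, b ∈ l1 := by
      have hc : l1.toFinset = Finset.univ := by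
        apply Finset.eq_univ_of_card
        rw [List.toFinset_card_of_nodup hnd1]
        simp; omega
      intro b
      rw [← List.mem_toFinset, hc]
      exact Finset.mem_univ _
    have hv : ∀ x ∈ l0, T v x := by
      intro x hx
      by_contra hx'
      exact no_cycle hE hl (hm1 true (hall _)) (hm0 x hx) (hm1 false (hall _))
        (by simp [ext, hx']) (by simp [ext, hx']) (by simp [ext])
    have := hF (v :: l0) (List.pairwise_cons.2 ⟨hv, hp0⟩)
    simp at this
    omega

/-- The orders of regular tournaments with no transitive subtournament on `k` vertices. -/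
def Orders (k : ℕ) : Set ℕ :=
  {m : ℕ | ∃ T : Fin m → Fin m → Prop,
          (∀ x, ¬ T x x) ∧
          (∀ x y, x ≠ y → (T x y ↔ ¬ T y x)) ∧
          (∀ v, Set.ncard {w | T v w} = Set.ncard {w | T w v}) ∧
          ¬ ∃ f : Fin k → Fin m, Function.Injective f ∧
              ∀ i j : Fin k, i < j → T (f i) (f j)}

lemma ncard_equiv {α β : Type*} (e : α ≃ β) (p : β → Prop) :
    Set.ncard {x | p (e x)} = Set.ncard {y | p y} := by
  have h : {y | p y} = e '' {x | p (e x)} := by
    ext y
    constructor
    · intro hy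
      exact ⟨e.symm y, by simpa using hy, by simp⟩
    · rintro ⟨x, hx, rfl⟩
      exact hx
  rw [h, Set.ncard_image_of_injective _ e.injective]

lemma mem_orders {V : Type*} {T : V → V → Prop} (hT : IsTour T) (hR : IsReg T) {k m : ℕ}
    (hF : Free k T) (e : Fin m ≃ V) : m ∈ Orders k := by
  refine ⟨fun x y => T (e x) (e y), fun x => hT.1 _,
    fun x y h => hT.2 _ _ fun h' => h (e.injective h'), fun v => ?_, ?_⟩
  · rw [ncard_equiv e (fun w => T (e v) w), ncard_equiv e (fun w => T w (e v))]
    exact hR _
  · rintro ⟨f, hf, hf'⟩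
    exact (free_iff hT.1 k).1 hF ⟨fun i => e (f i), e.injective.comp hf, hf'⟩

lemma orders_step {k m : ℕ} (hm : 0 < m) (h : m ∈ Orders k) : m + 2 ∈ Orders (k + 1) := by
  obtain ⟨T, h1, h2, h3, h4⟩ := h
  have hT : IsTour T := ⟨h1, h2⟩
  exact mem_orders (ext_tour hT ⟨0, hm⟩) (ext_reg hT h3 _)
    (ext_free hT _ ((free_iff h1 k).2 h4))
    (Fintype.equivFinOfCardEq (by simp)).symm

/-- The quadratic residue tournament on seven points. -/
def qr7 (a b : Fin 7) : Bool := b - a == 1 || b - a == 2 || b - a == 4

lemma seven_mem : 7 ∈ Orders 4 := by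
  refine ⟨fun a b => qr7 a b = true, by decide, by decide, ?_, ?_⟩
  · intro v
    have h1 : {w : Fin 7 | qr7 v w = true} =
        ((Finset.univ.filter fun w : Fin 7 => qr7 v w = true : Finset (Fin 7)) : Set (Fin 7)) := by
      ext w; simp
    have h2 : {w : Fin 7 | qr7 w v = true} =
        ((Finset.univ.filter fun w : Fin 7 => qr7 w v = true : Finset (Fin 7)) : Set (Fin 7)) := by
      ext w; simp
    rw [h1, h2, Set.ncard_coe_finset, Set.ncard_coe_finset]
    clear h1 h2
    revert v
    decide
  · rintro ⟨f, -, hf⟩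
    have key : ∀ a b c d : Fin 7, qr7 a b = true → qr7 a c = true → qr7 a d = true →
        qr7 b c = true → qr7 b d = true → qr7 c d = true → False := by decide +kernel
    exact key (f 0) (f 1) (f 2) (f 3) (hf 0 1 (by decide)) (hf 0 2 (by decide))
      (hf 0 3 (by decide)) (hf 1 2 (by decide)) (hf 1 3 (by decide)) (hf 2 3 (by decide))

lemma lower_mem (j : ℕ) : 2 * j + 7 ∈ Orders (j + 4) := by
  induction j with
  | zero => exact seven_mem
  | succ j ih => exact orders_step (by omega) ih

/-- Every set of `2 ^ k` vertices of a tournament carries a transitive list of length `k`. -/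
lemma chain_of_card {V : Type*} {T : V → V → Prop} (hT : IsTour T) (k : ℕ) :
    ∀ s : Finset V, 2 ^ k ≤ s.card → ∃ l : List V, l.Pairwise T ∧ l.length = k ∧ ∀ x ∈ l, x ∈ s := by
  classical
  induction k with
  | zero => intro s _; exact ⟨[], List.Pairwise.nil, rfl, by simp⟩
  | succ k ih =>
    intro s hs
    have hpos : 0 < 2 ^ k := by positivity
    obtain ⟨v, hv⟩ : s.Nonempty := Finset.card_pos.1 (by rw [pow_succ] at hs; omega)
    have hsub : s ⊆ insert v (s.filter (fun w => T v w) ∪ s.filter (fun w => T w v)) := by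
      intro w hw
      simp only [Finset.mem_insert, Finset.mem_union, Finset.mem_filter]
      by_cases e : w = v
      · exact Or.inl e
      · by_cases h : T v w
        · exact Or.inr (Or.inl ⟨hw, h⟩)
        · exact Or.inr (Or.inr ⟨hw, hT.total (Ne.symm e) h⟩)
    have h1 := Finset.card_le_card hsub
    have h2 := Finset.card_insert_le v (s.filter (fun w => T v w) ∪ s.filter (fun w => T w v))
    have h3 := Finset.card_union_le (s.filter (fun w => T v w)) (s.filter (fun w => T w v))
    rw [pow_succ] at hs
    by_cases ho : 2 ^ k ≤ (s.filter (fun w => T v w)).card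
    · obtain ⟨l, hl, hlen, hmem⟩ := ih _ ho
      refine ⟨v :: l, List.pairwise_cons.2 ⟨fun x hx => (Finset.mem_filter.1 (hmem x hx)).2, hl⟩,
        by simp [hlen], ?_⟩
      intro x hx
      rcases List.mem_cons.1 hx with rfl | hx
      · exact hv
      · exact (Finset.mem_filter.1 (hmem x hx)).1
    · obtain ⟨l, hl, hlen, hmem⟩ := ih (s.filter (fun w => T w v)) (by omega)
      refine ⟨l ++ [v], List.pairwise_append.2 ⟨hl, List.pairwise_singleton _ _, ?_⟩,
        by simp [hlen], ?_⟩
      · intro x hx y hy
        rw [List.mem_singleton.1 hy]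
        exact (Finset.mem_filter.1 (hmem x hx)).2
      · intro x hx
        rcases List.mem_append.1 hx with hx | hx
        · exact (Finset.mem_filter.1 (hmem x hx)).1
        · rw [List.mem_singleton.1 hx]; exact hv

lemma orders_bdd (k : ℕ) : BddAbove (Orders k) := by
  refine ⟨2 ^ k, ?_⟩
  rintro m ⟨T, h1, h2, -, h4⟩
  by_contra hm
  push Not at hm
  obtain ⟨l, hl, hlen, -⟩ := chain_of_card ⟨h1, h2⟩ k Finset.univ (by simp; omega)
  have := (free_iff h1 k).2 h4 l hl
  omega

lemma exists_reg {k : ℕ} (hk : 4 ≤ k) : ∃ r, IsGreatest (Orders k) r ∧ 2 * k ≤ r + 1 := by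
  obtain ⟨j, rfl⟩ : ∃ j, k = j + 4 := ⟨k - 4, by omega⟩
  have hb := orders_bdd (j + 4)
  refine ⟨sSup (Orders (j + 4)), ⟨Nat.sSup_mem ⟨_, lower_mem j⟩ hb, fun _ h => le_csSup hb h⟩, ?_⟩
  have := le_csSup hb (lower_mem j)
  omega

end Pool.Agent.P.MP_c11f96_co.Every
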